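import Pool.Agent.Y80.KM.Defs2

set_option autoImplicit false
set_option linter.unusedSectionVars false

open scoped BigOperators

/-! Project KM, job LGR: grading and weights of the Tits type Lie algebra. -/

namespace Pool.Agent.Y936.KM

open Pool.Agent.Y80.KM

section proj

variable {k M ι : Type*} [Field k] [AddCommGroup M] [Module k M] [DecidableEq ι]

theorem internal_of_proj (𝒜 : ι → Submodule k M) (π : ι → M →ₗ[k] M)
    (h1 : ∀ i, ∀ x ∈ 𝒜 i, π i x = x) (h2 : ∀ i j, i ≠ j → ∀ x ∈ 𝒜 i, π j x = 0)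
    (h3 : ∀ x, x ∈ iSup 𝒜) : DirectSum.IsInternal 𝒜 := by
  rw [DirectSum.isInternal_submodule_iff_iSupIndep_and_iSup_eq_top]
  refine ⟨?_, ?_⟩
  · rw [iSupIndep_def]
    intro i
    rw [Submodule.disjoint_def]
    intro x hx hx'
    have h4 : (⨆ j, ⨆ (_ : j ≠ i), 𝒜 j) ≤ LinearMap.ker (π i) := by
      refine iSup_le fun j => iSup_le fun hj => ?_
      intro y hy
      exact h2 j i hj y hy
    have h5 : π i x = 0 := h4 hx'
    rw [← h1 i x hx, h5]
  · rw [eq_top_iff]
    intro x _
    exact h3 x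

theorem exists_proj {𝒜 : ι → Submodule k M} (h : DirectSum.IsInternal 𝒜) :
    ∃ pr : ι → M →ₗ[k] M, (∀ i x, pr i x ∈ 𝒜 i) ∧ (∀ i, ∀ x ∈ 𝒜 i, pr i x = x) ∧
      (∀ i j, i ≠ j → ∀ x ∈ 𝒜 i, pr j x = 0) ∧
      ∀ x, ∃ S : Finset ι, (∀ n ∉ S, pr n x = 0) ∧ x = ∑ n ∈ S, pr n x := by
  classical
  let _ := h.chooseDecomposition
  refine ⟨fun i => (𝒜 i).subtype ∘ₗ DirectSum.component k ι (fun i => 𝒜 i) i ∘ₗ
    (DirectSum.decomposeLinearEquiv 𝒜).toLinearMap, ?_, ?_, ?_, ?_⟩
  · intro i x
    exact Subtype.coe_prop _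
  · intro i x hx
    exact DirectSum.decompose_of_mem_same 𝒜 hx
  · intro i j hij x hx
    exact DirectSum.decompose_of_mem_ne 𝒜 hx hij
  · intro x
    refine ⟨(DirectSum.decompose 𝒜 x).support, ?_, ?_⟩
    · intro n hn
      rw [DFinsupp.notMem_support_iff] at hn
      change ((DirectSum.decompose 𝒜 x n : 𝒜 n) : M) = 0
      rw [hn]; rfl
    · exact (DirectSum.sum_support_decompose 𝒜 x).symm

end proj

section eps

variable {N : ℕ}

theorem epsd_self (i : Fin N) : epsd i i = 0 := sub_self _

theorem epsd_add (i j l : Fin N) : epsd i j + epsd j l = epsd i l := by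
  simp [epsd]

theorem epsd_inj {i j a b : Fin N} (hij : i ≠ j) (h : epsd i j = epsd a b) : a = i ∧ b = j := by
  have h1 := congrFun h i
  have h2 := congrFun h j
  simp only [epsd, Pi.sub_apply, Pi.single_apply, if_true] at h1 h2
  rw [if_neg hij] at h1
  rw [if_neg (Ne.symm hij)] at h2
  constructor
  · by_contra hc
    rw [if_neg (Ne.symm hc)] at h1
    split_ifs at h1 <;> omega
  · by_contra hc
    rw [if_neg (Ne.symm hc)] at h2
    split_ifs at h2 <;> omega

theorem epsd_eq_zero {i j : Fin N} (h : epsd i j = 0) : i = j := by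
  by_contra hij
  have h1 := congrFun h i
  simp only [epsd, Pi.sub_apply, Pi.single_apply, if_true, Pi.zero_apply] at h1
  rw [if_neg hij] at h1
  omega

end eps

section LGR

variable {k A : Type*} [Field k] [CharZero k] [NonUnitalNonAssocRing A] [Module k A]
  [IsScalarTower k A A] [SMulCommClass k A A] {N : ℕ} [NeZero N] (T : TitsData k A N)
  (𝒜 : ℕ → Submodule k A)

theorem mem_lcomp {n : ℕ} {μ : Fin N → ℤ} {x : TLie T} : x ∈ lcomp T 𝒜 n μ ↔
    (x.b ∈ bcomp 𝒜 n ∧ (μ ≠ 0 → x.b = 0)) ∧
    ∀ i j, x.mat i j ∈ 𝒜 n ∧ (μ ≠ epsd i j → x.mat i j = 0) := Iff.rfl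

/-- the projection to the component -/
noncomputable def lproj (pA : ℕ → A →ₗ[k] A) (pB : ℕ → BSp k A →ₗ[k] BSp k A)
    (p : ℕ × (Fin N → ℤ)) : TLie T →ₗ[k] TLie T where
  toFun x := TLie.mk T (Matrix.of fun i j => if p.2 = epsd i j then pA p.1 (x.mat i j) else 0)
    (by
      rw [Matrix.trace]
      simp only [Matrix.diag_apply, Matrix.of_apply, epsd_self]
      by_cases h : p.2 = 0
      · simp only [if_pos h]
        rw [← map_sum]
        have := TLie.trace_mat T x
        rw [Matrix.trace] at this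
        simp only [Matrix.diag_apply] at this
        rw [this, map_zero]
      · simp only [if_neg h, Finset.sum_const_zero]) (if p.2 = 0 then pB p.1 x.b else 0)
  map_add' x y := by
    apply TLie.ext
    · ext i j
      simp only [TLie.mat_mk, TLie.mat_add, Matrix.of_apply, Matrix.add_apply]
      split_ifs <;> simp
    · simp only [TLie.b_mk, TLie.b_add]
      split_ifs <;> simp
  map_smul' c x := by
    apply TLie.ext
    · ext i j
      simp only [TLie.mat_mk, TLie.mat_smul, Matrix.of_apply, Matrix.smul_apply, RingHom.id_apply]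
      split_ifs <;> simp
    · simp only [TLie.b_mk, TLie.b_smul, RingHom.id_apply]
      split_ifs <;> simp

theorem mat_lproj (pA : ℕ → A →ₗ[k] A) (pB : ℕ → BSp k A →ₗ[k] BSp k A)
    (p : ℕ × (Fin N → ℤ)) (x : TLie T) (i j : Fin N) :
    (lproj T pA pB p x).mat i j = if p.2 = epsd i j then pA p.1 (x.mat i j) else 0 := rfl

theorem b_lproj (pA : ℕ → A →ₗ[k] A) (pB : ℕ → BSp k A →ₗ[k] BSp k A)
    (p : ℕ × (Fin N → ℤ)) (x : TLie T) :
    (lproj T pA pB p x).b = if p.2 = 0 then pB p.1 x.b else 0 := rfl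

theorem lcomp_internal (h : DirectSum.IsInternal 𝒜) (hb : DirectSum.IsInternal (bcomp 𝒜)) :
    DirectSum.IsInternal fun p : ℕ × (Fin N → ℤ) => lcomp T 𝒜 p.1 p.2 := by
  classical
  obtain ⟨pA, pA1, pA2, pA3, pA4⟩ := exists_proj h
  obtain ⟨pB, pB1, pB2, pB3, pB4⟩ := exists_proj hb
  refine internal_of_proj _ (lproj T pA pB) ?_ ?_ ?_
  · rintro ⟨n, μ⟩ x hx
    rw [mem_lcomp] at hx
    obtain ⟨⟨hx1, hx2⟩, hx3⟩ := hx
    dsimp only at hx1 hx2 hx3
    apply TLie.ext
    · ext i j
      rw [mat_lproj]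
      dsimp only
      split_ifs with hμ
      · exact pA2 n _ (hx3 i j).1
      · exact ((hx3 i j).2 hμ).symm
    · rw [b_lproj]
      dsimp only
      split_ifs with hμ
      · exact pB2 n _ hx1
      · exact (hx2 hμ).symm
  · rintro ⟨n, μ⟩ ⟨m, ν⟩ hne x hx
    rw [mem_lcomp] at hx
    obtain ⟨⟨hx1, hx2⟩, hx3⟩ := hx
    dsimp only at hx1 hx2 hx3
    apply TLie.ext
    · ext i j
      rw [mat_lproj, TLie.mat_zero, Matrix.zero_apply]
      dsimp only
      split_ifs with hν
      · by_cases hμ : μ = epsd i j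
        · have hnm : n ≠ m := by
            rintro rfl
            exact hne (by rw [hμ, hν])
          exact pA3 n m hnm _ (hx3 i j).1
        · rw [(hx3 i j).2 hμ, map_zero]
      · rfl
    · rw [b_lproj, TLie.b_zero]
      dsimp only
      split_ifs with hν
      · by_cases hμ : μ = 0
        · have hnm : n ≠ m := by
            rintro rfl
            exact hne (by rw [hμ, hν])
          exact pB3 n m hnm _ hx1
        · rw [hx2 hμ, map_zero]
      · rfl
  · intro x
    -- the finite set of degrees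
    choose SA hSA1 hSA2 using fun p : Fin N × Fin N => pA4 (x.mat p.1 p.2)
    obtain ⟨SB, hSB1, hSB2⟩ := pB4 x.b
    let S : Finset ℕ := (Finset.univ.biUnion SA) ∪ SB
    let W : Finset (Fin N → ℤ) := insert 0 (Finset.univ.image fun p : Fin N × Fin N => epsd p.1 p.2)
    have hxsum : x = ∑ p ∈ S ×ˢ W, lproj T pA pB p x := by
      have hmat : ∀ (s : Finset (ℕ × (Fin N → ℤ))) (f : ℕ × (Fin N → ℤ) → TLie T) (i j : Fin N),
          (∑ p ∈ s, f p).mat i j = ∑ p ∈ s, (f p).mat i j := by
        intro s f i j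
        induction s using Finset.induction_on with
        | empty => simp
        | insert a s ha ih =>
          rw [Finset.sum_insert ha, Finset.sum_insert ha, TLie.mat_add, Matrix.add_apply, ih]
      have hbb : ∀ (s : Finset (ℕ × (Fin N → ℤ))) (f : ℕ × (Fin N → ℤ) → TLie T),
          (∑ p ∈ s, f p).b = ∑ p ∈ s, (f p).b := by
        intro s f
        induction s using Finset.induction_on with
        | empty => simp
        | insert a s ha ih =>
          rw [Finset.sum_insert ha, Finset.sum_insert ha, TLie.b_add, ih]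
      apply TLie.ext
      · ext i j
        rw [hmat, Finset.sum_product]
        have hW : epsd i j ∈ W :=
          Finset.mem_insert_of_mem (Finset.mem_image_of_mem (fun p : Fin N × Fin N => epsd p.1 p.2)
            (Finset.mem_univ (i, j)))
        have h1 : ∀ n ∈ S, ∑ μ ∈ W, (lproj T pA pB (n, μ) x).mat i j = pA n (x.mat i j) := by
          intro n _
          simp only [mat_lproj]
          rw [Finset.sum_ite_eq' W (epsd i j)]
          rw [if_pos hW]
        rw [Finset.sum_congr rfl h1]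
        conv_lhs => rw [hSA2 (i, j)]
        refine Finset.sum_subset ?_ ?_
        · intro n hn
          exact Finset.mem_union_left _ (Finset.mem_biUnion.2 ⟨(i, j), Finset.mem_univ _, hn⟩)
        · intro n _ hn
          exact hSA1 (i, j) n hn
      · rw [hbb, Finset.sum_product]
        have hW : (0 : Fin N → ℤ) ∈ W := Finset.mem_insert_self _ _
        have h1 : ∀ n ∈ S, ∑ μ ∈ W, (lproj T pA pB (n, μ) x).b = pB n x.b := by
          intro n _
          simp only [b_lproj]
          rw [Finset.sum_ite_eq' W (0 : Fin N → ℤ)]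
          rw [if_pos hW]
        rw [Finset.sum_congr rfl h1]
        conv_lhs => rw [hSB2]
        refine Finset.sum_subset ?_ ?_
        · intro n hn
          exact Finset.mem_union_right _ hn
        · intro n _ hn
          exact hSB1 n hn
    rw [hxsum]
    refine Submodule.sum_mem _ fun p _ => ?_
    refine Submodule.mem_iSup_of_mem p ?_
    rw [mem_lcomp]
    refine ⟨⟨?_, ?_⟩, fun i j => ⟨?_, ?_⟩⟩
    · rw [b_lproj]
      split_ifs
      · exact pB1 _ _
      · exact zero_mem _
    · intro hμ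
      rw [b_lproj, if_neg hμ]
    · rw [mat_lproj]
      split_ifs
      · exact pA1 _ _
      · exact zero_mem _
    · intro hμ
      rw [mat_lproj, if_neg hμ]

variable {𝒜}

theorem wedge_mem_bcomp {m n l : ℕ} (hl : m + n = l) {a b : A} (ha : a ∈ 𝒜 m) (hb : b ∈ 𝒜 n) :
    wedge k A a b ∈ bcomp 𝒜 l :=
  Submodule.subset_span ⟨m, n, hl, a, ha, b, hb, rfl⟩

variable {T}

theorem Dact_mem (hD : ∀ m n l, ∀ x ∈ 𝒜 m, ∀ y ∈ 𝒜 n, ∀ z ∈ 𝒜 l, T.D x y z ∈ 𝒜 (m + n + l))
    {m n : ℕ} {b : BSp k A} (hb : b ∈ bcomp 𝒜 m) {z : A} (hz : z ∈ 𝒜 n) :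
    T.Dact b z ∈ 𝒜 (m + n) := by
  rw [bcomp] at hb
  induction hb using Submodule.span_induction with
  | mem x hx =>
    obtain ⟨i, j, hij, a, ha, b, hb, rfl⟩ := hx
    rw [T.Dact_wedge, ← hij]
    exact hD i j n a ha b hb z hz
  | zero => rw [map_zero, LinearMap.zero_apply]; exact zero_mem _
  | add x y _ _ h1 h2 => rw [map_add, LinearMap.add_apply]; exact add_mem h1 h2
  | smul c x _ h1 => rw [map_smul, LinearMap.smul_apply]; exact Submodule.smul_mem _ c h1

theorem Bact_mem (hD : ∀ m n l, ∀ x ∈ 𝒜 m, ∀ y ∈ 𝒜 n, ∀ z ∈ 𝒜 l, T.D x y z ∈ 𝒜 (m + n + l))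
    {m n : ℕ} {b c : BSp k A} (hb : b ∈ bcomp 𝒜 m) (hc : c ∈ bcomp 𝒜 n) :
    T.Bact b c ∈ bcomp 𝒜 (m + n) := by
  have hc' := hc
  rw [bcomp] at hc'
  induction hc' using Submodule.span_induction with
  | mem x hx =>
    obtain ⟨i, j, hij, u, hu, v, hv, rfl⟩ := hx
    rw [T.Bact_wedge]
    refine add_mem ?_ ?_
    · exact wedge_mem_bcomp (by omega) (Dact_mem hD hb hu) hv
    · exact wedge_mem_bcomp (by omega) hu (Dact_mem hD hb hv)
  | zero => rw [map_zero]; exact zero_mem _
  | add x y hx hy h1 h2 => rw [map_add]; exact add_mem (h1 hx) (h2 hy)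
  | smul c x hx h1 => rw [map_smul]; exact Submodule.smul_mem _ c (h1 hx)

variable (T) (𝒜)

theorem lcomp_br (hm : ∀ m n, ∀ x ∈ 𝒜 m, ∀ y ∈ 𝒜 n, x * y ∈ 𝒜 (m + n))
    (hD : ∀ m n l, ∀ x ∈ 𝒜 m, ∀ y ∈ 𝒜 n, ∀ z ∈ 𝒜 l, T.D x y z ∈ 𝒜 (m + n + l))
    {m n : ℕ} {μ ν : Fin N → ℤ} {x y : TLie T} (hx : x ∈ lcomp T 𝒜 m μ)
    (hy : y ∈ lcomp T 𝒜 n ν) : TLie.br T x y ∈ lcomp T 𝒜 (m + n) (μ + ν) := by
  rw [mem_lcomp] at hx hy ⊢
  obtain ⟨⟨hx1, hx2⟩, hx3⟩ := hx
  obtain ⟨⟨hy1, hy2⟩, hy3⟩ := hy
  -- the entries of `M M' - M' M`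
  have hcom : ∀ i j, (x.mat * y.mat - y.mat * x.mat) i j ∈ 𝒜 (m + n) ∧
      (μ + ν ≠ epsd i j → (x.mat * y.mat - y.mat * x.mat) i j = 0) := by
    intro i j
    rw [Matrix.sub_apply, Matrix.mul_apply, Matrix.mul_apply]
    constructor
    · refine sub_mem (sum_mem fun l _ => hm _ _ _ (hx3 i l).1 _ (hy3 l j).1)
        (sum_mem fun l _ => ?_)
      rw [add_comm]
      exact hm _ _ _ (hy3 i l).1 _ (hx3 l j).1
    · intro hne
      rw [Finset.sum_eq_zero, Finset.sum_eq_zero, sub_zero]
      · intro l _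
        by_cases h1 : ν = epsd i l
        · by_cases h2 : μ = epsd l j
          · exact absurd (by rw [h1, h2, add_comm, epsd_add]) hne
          · rw [(hx3 l j).2 h2, mul_zero]
        · rw [(hy3 i l).2 h1, zero_mul]
      · intro l _
        by_cases h1 : μ = epsd i l
        · by_cases h2 : ν = epsd l j
          · exact absurd (by rw [h1, h2, epsd_add]) hne
          · rw [(hy3 l j).2 h2, mul_zero]
        · rw [(hx3 i l).2 h1, zero_mul]
  refine ⟨⟨?_, ?_⟩, fun i j => ⟨?_, ?_⟩⟩
  · rw [TLie.b_br]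
    refine add_mem (Submodule.smul_mem _ _ ?_) (Bact_mem hD hx1 hy1)
    exact sum_mem fun i _ => sum_mem fun j _ => wedge_mem_bcomp rfl (hx3 i j).1 (hy3 j i).1
  · intro hne
    rw [TLie.b_br]
    have h1 : tw k x.mat y.mat = 0 := by
      rw [tw]
      refine Finset.sum_eq_zero fun i _ => Finset.sum_eq_zero fun j _ => ?_
      by_cases h1 : μ = epsd i j
      · by_cases h2 : ν = epsd j i
        · exact absurd (by rw [h1, h2, epsd_add, epsd_self]) hne
        · rw [(hy3 j i).2 h2, map_zero]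
      · rw [(hx3 i j).2 h1, map_zero, LinearMap.zero_apply]
    have h2 : T.Bact x.b y.b = 0 := by
      by_cases h1 : μ = 0
      · have h2 : ν ≠ 0 := by
          rintro rfl
          exact hne (by rw [h1, add_zero])
        rw [hy2 h2, map_zero]
      · rw [hx2 h1, map_zero, LinearMap.zero_apply]
    rw [h1, h2, smul_zero, add_zero]
  · rw [TLie.mat_br, Matrix.sub_apply, Matrix.add_apply, Matrix.map_apply, Matrix.map_apply]
    refine sub_mem (add_mem ?_ (Dact_mem hD hx1 (hy3 i j).1)) ?_
    · rw [cbr, Matrix.sub_apply]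
      refine sub_mem (hcom i j).1 ?_
      rw [Matrix.diagonal_apply]
      split_ifs
      · refine Submodule.smul_mem _ _ ?_
        exact sum_mem fun l _ => (hcom l l).1
      · exact zero_mem _
    · rw [add_comm]
      exact Dact_mem hD hy1 (hx3 i j).1
  · intro hne
    rw [TLie.mat_br, Matrix.sub_apply, Matrix.add_apply, Matrix.map_apply, Matrix.map_apply]
    have h1 : cbr k x.mat y.mat i j = 0 := by
      rw [cbr, Matrix.sub_apply, (hcom i j).2 hne, Matrix.diagonal_apply]
      split_ifs with hij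
      · have h2 : (x.mat * y.mat - y.mat * x.mat).trace = 0 := by
          rw [Matrix.trace]
          refine Finset.sum_eq_zero fun l _ => ?_
          rw [Matrix.diag_apply]
          refine (hcom l l).2 ?_
          rw [epsd_self]
          rw [hij, epsd_self] at hne
          exact hne
        rw [h2, smul_zero, sub_zero]
      · rw [sub_zero]
    have h2 : T.Dact x.b (y.mat i j) = 0 := by
      by_cases h3 : μ = 0
      · rw [h3, zero_add] at hne
        rw [(hy3 i j).2 hne, map_zero]
      · rw [hx2 h3, map_zero, LinearMap.zero_apply]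
    have h3 : T.Dact y.b (x.mat i j) = 0 := by
      by_cases h3 : ν = 0
      · rw [h3, add_zero] at hne
        rw [(hx3 i j).2 hne, map_zero]
      · rw [hy2 h3, map_zero, LinearMap.zero_apply]
    rw [h1, h2, h3]
    simp

theorem scomm_single (i j : Fin N) (M : Matrix (Fin N) (Fin N) A) (a b : Fin N) :
    scomm (Matrix.single i j (1 : k)) M a b =
      (if a = i then M j b else 0) - (if b = j then M a i else 0) := by
  rw [scomm, Matrix.of_apply]
  congr 1
  · by_cases ha : a = i
    · subst ha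
      rw [if_pos rfl, Finset.sum_eq_single j]
      · simp
      · intro l _ hl
        simp [Matrix.single_apply, Ne.symm hl]
      · simp
    · rw [if_neg ha]
      refine Finset.sum_eq_zero fun l _ => ?_
      simp [Matrix.single_apply, Ne.symm ha]
  · by_cases hb : b = j
    · subst hb
      rw [if_pos rfl, Finset.sum_eq_single i]
      · simp
      · intro l _ hl
        simp [Matrix.single_apply, Ne.symm hl]
      · simp
    · rw [if_neg hb]
      refine Finset.sum_eq_zero fun l _ => ?_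
      simp [Matrix.single_apply, Ne.symm hb]

theorem lcomp_glAct {n : ℕ} {μ : Fin N → ℤ} {x : TLie T} (hx : x ∈ lcomp T 𝒜 n μ)
    (i j : Fin N) : glAct T (Matrix.single i j 1) x ∈ lcomp T 𝒜 n (μ + epsd i j) := by
  rw [mem_lcomp] at hx ⊢
  obtain ⟨⟨hx1, hx2⟩, hx3⟩ := hx
  refine ⟨⟨?_, ?_⟩, fun a b => ⟨?_, ?_⟩⟩
  · rw [b_glAct]; exact zero_mem _
  · intro _; rw [b_glAct]
  · rw [mat_glAct, scomm_single]
    refine sub_mem ?_ ?_
    · split_ifs
      · exact (hx3 j b).1
      · exact zero_mem _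
    · split_ifs
      · exact (hx3 a i).1
      · exact zero_mem _
  · intro hne
    rw [mat_glAct, scomm_single]
    have h1 : (if a = i then x.mat j b else 0) = 0 := by
      split_ifs with ha
      · refine (hx3 j b).2 ?_
        intro hμ
        apply hne
        rw [hμ, add_comm, epsd_add, ha]
      · rfl
    have h2 : (if b = j then x.mat a i else 0) = 0 := by
      split_ifs with hb
      · refine (hx3 a i).2 ?_
        intro hμ
        apply hne
        rw [hμ, epsd_add, hb]
      · rfl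
    rw [h1, h2, sub_zero]

theorem lcomp_weight {n : ℕ} {μ : Fin N → ℤ} {x : TLie T} (hx : x ∈ lcomp T 𝒜 n μ)
    (j : Fin N) : glAct T (Matrix.single j j 1) x = ((μ j : ℤ) : k) • x := by
  rw [mem_lcomp] at hx
  obtain ⟨⟨hx1, hx2⟩, hx3⟩ := hx
  apply TLie.ext
  · ext a b
    rw [mat_glAct, scomm_single, TLie.mat_smul, Matrix.smul_apply]
    by_cases hμ : μ = epsd a b
    · have h1 : (μ j : ℤ) = (if a = j then 1 else 0) - (if b = j then 1 else 0) := by
        rw [hμ, epsd, Pi.sub_apply, Pi.single_apply, Pi.single_apply]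
        simp only [eq_comm]
      rw [h1]
      by_cases ha : a = j
      · by_cases hb : b = j
        · rw [if_pos ha, if_pos hb, if_pos ha, if_pos hb, ha, hb]
          simp
        · rw [if_pos ha, if_neg hb, if_pos ha, if_neg hb, ha]
          simp
      · by_cases hb : b = j
        · rw [if_neg ha, if_pos hb, if_neg ha, if_pos hb, hb]
          simp
        · rw [if_neg ha, if_neg hb, if_neg ha, if_neg hb]
          simp
    · rw [(hx3 a b).2 hμ, smul_zero]
      by_cases ha : a = j
      · subst ha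
        rw [(hx3 a b).2 hμ, if_pos rfl]
        by_cases hb : b = a
        · subst hb
          rw [(hx3 b b).2 hμ]
          simp
        · rw [if_neg hb, sub_zero]
      · rw [if_neg ha]
        by_cases hb : b = j
        · subst hb
          rw [(hx3 a b).2 hμ]
          simp
        · rw [if_neg hb, sub_zero]
  · rw [b_glAct, TLie.b_smul]
    by_cases hμ : μ = 0
    · rw [hμ]; simp
    · rw [hx2 hμ, smul_zero]

theorem bcomp_fin (h : ∀ n, FiniteDimensional k (𝒜 n)) (n : ℕ) :
    FiniteDimensional k (bcomp 𝒜 n) := by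
  have h1 : bcomp 𝒜 n ≤ ⨆ p : (Finset.HasAntidiagonal.antidiagonal n : Finset (ℕ × ℕ)),
      Submodule.map₂ (wedge k A) (𝒜 p.1.1) (𝒜 p.1.2) := by
    rw [bcomp, Submodule.span_le]
    rintro x ⟨i, j, hij, a, ha, b, hb, rfl⟩
    exact Submodule.mem_iSup_of_mem ⟨(i, j), Finset.HasAntidiagonal.mem_antidiagonal.2 hij⟩
      (Submodule.apply_mem_map₂ _ ha hb)
  have h2 : ∀ p : (Finset.HasAntidiagonal.antidiagonal n : Finset (ℕ × ℕ)),
      FiniteDimensional k (Submodule.map₂ (wedge k A) (𝒜 p.1.1) (𝒜 p.1.2)) := by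
    intro p
    exact Module.Finite.iff_fg.2 (Submodule.FG.map₂ _ (Module.Finite.iff_fg.1 (h _))
      (Module.Finite.iff_fg.1 (h _)))
  have h3 : FiniteDimensional k (↥(⨆ p : (Finset.HasAntidiagonal.antidiagonal n : Finset (ℕ × ℕ)),
      Submodule.map₂ (wedge k A) (𝒜 p.1.1) (𝒜 p.1.2))) := inferInstance
  exact Submodule.finiteDimensional_of_le h1

/-- coordinates of a component -/
noncomputable def lco (n : ℕ) (μ : Fin N → ℤ) :
    lcomp T 𝒜 n μ →ₗ[k] (Fin N → Fin N → 𝒜 n) × bcomp 𝒜 n where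
  toFun x := (fun i j => ⟨x.1.mat i j, (x.2.2 i j).1⟩, ⟨x.1.b, x.2.1.1⟩)
  map_add' _ _ := rfl
  map_smul' _ _ := rfl

theorem lco_injective (n : ℕ) (μ : Fin N → ℤ) : Function.Injective (lco T 𝒜 n μ) := by
  intro x y h
  apply Subtype.ext
  apply TLie.ext
  · ext i j
    have := congrFun (congrFun (congrArg Prod.fst h) i) j
    exact congrArg Subtype.val this
  · exact congrArg Subtype.val (congrArg Prod.snd h)

theorem lcomp_finite (h : ∀ n, FiniteDimensional k (𝒜 n)) (n : ℕ) (μ : Fin N → ℤ) :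
    FiniteDimensional k (lcomp T 𝒜 n μ) := by
  have := h n
  have := bcomp_fin 𝒜 h n
  exact FiniteDimensional.of_injective (lco T 𝒜 n μ) (lco_injective T 𝒜 n μ)

theorem lcomp_finrank_root (h : ∀ n, FiniteDimensional k (𝒜 n)) (n : ℕ) (i j : Fin N)
    (hij : i ≠ j) : Module.finrank k (lcomp T 𝒜 n (epsd i j)) = Module.finrank k (𝒜 n) := by
  let f : lcomp T 𝒜 n (epsd i j) →ₗ[k] 𝒜 n :=
    { toFun := fun x => ⟨x.1.mat i j, (x.2.2 i j).1⟩
      map_add' := fun _ _ => rfl
      map_smul' := fun _ _ => rfl }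
  have hf : Function.Bijective f := by
    constructor
    · intro x y hxy
      apply Subtype.ext
      have h0 : (epsd i j : Fin N → ℤ) ≠ 0 := fun h => hij (epsd_eq_zero h)
      apply TLie.ext
      · ext a b
        by_cases hab : epsd i j = epsd a b
        · obtain ⟨rfl, rfl⟩ := epsd_inj hij hab
          exact congrArg Subtype.val hxy
        · rw [(x.2.2 a b).2 hab, (y.2.2 a b).2 hab]
      · rw [x.2.1.2 h0, y.2.1.2 h0]
    · intro a
      have htr : (Matrix.single i j (a : A)).trace = 0 := by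
        rw [Matrix.trace]
        refine Finset.sum_eq_zero fun l _ => ?_
        rw [Matrix.diag_apply, Matrix.single_apply, if_neg]
        rintro ⟨rfl, rfl⟩
        exact hij rfl
      refine ⟨⟨TLie.mk T (Matrix.single i j (a : A)) htr 0, ?_⟩, ?_⟩
      · rw [mem_lcomp]
        refine ⟨⟨zero_mem _, fun _ => rfl⟩, fun p q => ?_⟩
        rw [TLie.mat_mk, Matrix.single_apply]
        constructor
        · split_ifs
          · exact a.2
          · exact zero_mem _
        · intro hne
          rw [if_neg]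
          rintro ⟨rfl, rfl⟩
          exact hne rfl
      · apply Subtype.ext
        change (Matrix.single i j (a : A)) i j = a
        rw [Matrix.single_apply_same]
  exact (LinearEquiv.ofBijective f hf).finrank_eq

theorem lcomp_eq_bot (n : ℕ) (μ : Fin N → ℤ) (hμ : ∀ i j, μ ≠ epsd i j) (h0 : μ ≠ 0) :
    lcomp T 𝒜 n μ = ⊥ := by
  rw [eq_bot_iff]
  intro x hx
  rw [mem_lcomp] at hx
  rw [Submodule.mem_bot]
  apply TLie.ext
  · ext i j
    rw [(hx.2 i j).2 (hμ i j)]
    rfl
  · rw [hx.1.2 h0]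
    rfl

theorem lcomp_finrank_zero_aux {N : ℕ} (T : TitsData k A (N + 1))
    (h : ∀ n, FiniteDimensional k (𝒜 n)) (n : ℕ) :
    Module.finrank k (lcomp T 𝒜 n 0) =
      N * Module.finrank k (𝒜 n) + Module.finrank k (bcomp 𝒜 n) := by
  have := h n
  have := bcomp_fin 𝒜 h n
  let f : lcomp T 𝒜 n 0 →ₗ[k] (Fin N → 𝒜 n) × bcomp 𝒜 n :=
    { toFun := fun x => (fun i => ⟨x.1.mat i.castSucc i.castSucc, (x.2.2 _ _).1⟩,
        ⟨x.1.b, x.2.1.1⟩)
      map_add' := fun _ _ => rfl
      map_smul' := fun _ _ => rfl }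
  have hf : Function.Bijective f := by
    constructor
    · rw [injective_iff_map_eq_zero]
      intro x hx
      have hb : x.1.b = 0 := congrArg Subtype.val (congrArg Prod.snd hx)
      have hd : ∀ i : Fin N, x.1.mat i.castSucc i.castSucc = 0 := fun i =>
        congrArg Subtype.val (congrFun (congrArg Prod.fst hx) i)
      have hl : x.1.mat (Fin.last N) (Fin.last N) = 0 := by
        have h1 := TLie.trace_mat T x.1
        rw [Matrix.trace, Fin.sum_univ_castSucc] at h1
        simp only [Matrix.diag_apply, hd, Finset.sum_const_zero, zero_add] at h1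
        exact h1
      apply Subtype.ext
      apply TLie.ext
      · ext a b
        by_cases hab : a = b
        · subst hab
          refine Fin.lastCases ?_ (fun i => ?_) a
          · rw [hl]; rfl
          · rw [hd]; rfl
        · rw [(x.2.2 a b).2 (fun h => hab (epsd_eq_zero h.symm))]
          rfl
      · rw [hb]; rfl
    · rintro ⟨a, b⟩
      let dd : Fin (N + 1) → A := Fin.lastCases (-∑ i, (a i : A)) (fun i => (a i : A))
      have hdd1 : dd (Fin.last N) = -∑ i, (a i : A) := by simp [dd]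
      have hdd2 : ∀ i : Fin N, dd i.castSucc = (a i : A) := fun i => by simp [dd]
      have htr : (Matrix.diagonal dd).trace = 0 := by
        rw [Matrix.trace_diagonal, Fin.sum_univ_castSucc, hdd1]
        simp only [hdd2]
        exact add_neg_cancel _
      have hmem : ∀ i, dd i ∈ 𝒜 n := by
        intro i
        refine Fin.lastCases ?_ (fun i => ?_) i
        · rw [hdd1]; exact neg_mem (sum_mem fun i _ => (a i).2)
        · rw [hdd2]; exact (a i).2
      refine ⟨⟨TLie.mk T (Matrix.diagonal dd) htr b, ?_⟩, ?_⟩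
      · rw [mem_lcomp]
        refine ⟨⟨b.2, fun h => absurd rfl h⟩, fun p q => ?_⟩
        rw [TLie.mat_mk, Matrix.diagonal_apply]
        constructor
        · split_ifs
          · exact hmem _
          · exact zero_mem _
        · intro hne
          rw [if_neg]
          rintro rfl
          exact hne (epsd_self _).symm
      · refine Prod.ext (funext fun i => Subtype.ext ?_) (Subtype.ext rfl)
        change (Matrix.diagonal dd) i.castSucc i.castSucc = (a i : A)
        rw [Matrix.diagonal_apply_eq, hdd2]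
  rw [(LinearEquiv.ofBijective f hf).finrank_eq, Module.finrank_prod,
    Module.finrank_pi_fintype]
  simp

theorem lcomp_finrank_zero (h : ∀ n, FiniteDimensional k (𝒜 n)) (n : ℕ) :
    Module.finrank k (lcomp T 𝒜 n 0) =
      (N - 1) * Module.finrank k (𝒜 n) + Module.finrank k (bcomp 𝒜 n) := by
  obtain ⟨N', rfl⟩ := Nat.exists_eq_succ_of_ne_zero (NeZero.ne N)
  exact lcomp_finrank_zero_aux 𝒜 T h n

end LGR

end Pool.Agent.Y936.KM
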